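import Mathlib

namespace Pool.Agent.H.MP_6c430b_al

open CategoryTheory

/-- vertices of the Squier complex: words -/
structure Vert (R : List (List ℕ × List ℕ)) where
  word : List ℕ

/-- edges: triples (a, relation u = v, b), from a u b to a v b -/
instance (R : List (List ℕ × List ℕ)) : Quiver (Vert R) where
  Hom x y := {e : List ℕ × (List ℕ × List ℕ) × List ℕ //
    e.2.1 ∈ R ∧ x.word = e.1 ++ e.2.1.1 ++ e.2.2 ∧ y.word = e.1 ++ e.2.1.2 ++ e.2.2}

/-- the squares -/
inductive Square (R : List (List ℕ × List ℕ)) : HomRel (Quiver.FreeGroupoid (Vert R))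
  | mk {x y z z' : Vert R} (e₁ : x ⟶ z) (e₂ : z ⟶ y) (e₃ : x ⟶ z') (e₄ : z' ⟶ y)
      (a b c u v p q : List ℕ) :
      e₁.1 = (a, (u, v), b ++ p ++ c) → e₂.1 = (a ++ v ++ b, (p, q), c) →
      e₃.1 = (a ++ u ++ b, (p, q), c) → e₄.1 = (a, (u, v), b ++ q ++ c) →
      Square R ((Quiver.FreeGroupoid.of _).map e₁ ≫ (Quiver.FreeGroupoid.of _).map e₂)
        ((Quiver.FreeGroupoid.of _).map e₃ ≫ (Quiver.FreeGroupoid.of _).map e₄)

/-- the diagram group: fundamental group of the Squier complex at w -/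
def Diag (R : List (List ℕ × List ℕ)) (w : List ℕ) : Type :=
  End ((CategoryTheory.Quotient.functor (Square R)).obj ((Quiver.FreeGroupoid.of (Vert R)).obj ⟨w⟩))

end Pool.Agent.H.MP_6c430b_al
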