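import Pool.Agent.H.MP_6c430b_al.Defs

namespace Pool.Agent.H.MP_6c430b_al

open CategoryTheory

/-- the group structure of the vertex group of a groupoid -/
instance (R : List (List ℕ × List ℕ)) (w : List ℕ) : Group (Diag R w) :=
  End.group ((CategoryTheory.Quotient.functor (Square R)).obj
    ((Quiver.FreeGroupoid.of (Vert R)).obj ⟨w⟩))

/-- rank of the abelianisation -/
noncomputable def abRank (G : Type) [Group G] : Cardinal :=
  Module.rank ℚ (TensorProduct ℤ ℚ (Additive (Abelianization G)))

end Pool.Agent.H.MP_6c430b_al
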