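import Pool.Agent.H.MP_6c430b_al.Defs

namespace Pool.Agent.H.MP_6c430b_al

open CategoryTheory

variable {R : List (List ℕ × List ℕ)}

abbrev ob (x : Vert R) : Quiver.FreeGroupoid (Vert R) := (Quiver.FreeGroupoid.of (Vert R)).obj x

abbrev ar {x y : Vert R} (e : x ⟶ y) : ob x ⟶ ob y := (Quiver.FreeGroupoid.of (Vert R)).map e

inductive Up : ℕ → ∀ (x z : Vert R), (ob x ⟶ ob z) → Prop
  | nil (x : Vert R) : Up 0 x x (𝟙 _)
  | cons {n : ℕ} {x y z : Vert R} (e : x ⟶ y) {g : ob y ⟶ ob z} : Up n y z g →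
      Up (n + 1) x z (ar e ≫ g)

lemma Up.trans {m n : ℕ} {x y z : Vert R} {f : ob x ⟶ ob y} {g : ob y ⟶ ob z} (h : Up m x y f)
    (h' : Up n y z g) : Up (n + m) x z (f ≫ g) := by
  induction h with
  | nil x => simpa using h'
  | cons e _ ih =>
    rw [Category.assoc]
    exact Up.cons e (ih h')

lemma Up.one {x y : Vert R} (e : x ⟶ y) : Up 1 x y (ar e) := by
  simpa using Up.cons e (Up.nil y)

noncomputable def wt : Quiver.FreeGroupoid (Vert R) ⥤ SingleObj (Multiplicative ℤ) :=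
  Quiver.FreeGroupoid.lift
    { obj := fun _ => SingleObj.star _, map := fun _ => Multiplicative.ofAdd (1 : ℤ) }

lemma wt_ar {x y : Vert R} (e : x ⟶ y) : wt.map (ar e) = Multiplicative.ofAdd (1 : ℤ) := rfl

lemma wt_up {n : ℕ} {x y : Vert R} {f : ob x ⟶ ob y} (h : Up n x y f) :
    wt.map f = Multiplicative.ofAdd (n : ℤ) := by
  induction h with
  | nil x => rw [wt.map_id]; rfl
  | cons e _ ih =>
    rw [wt.map_comp, ih, wt_ar, SingleObj.comp_as_mul, ← ofAdd_add]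
    simp

lemma nontriv {m n : ℕ} {w : List ℕ} {y : Vert R} {f : ob ⟨w⟩ ⟶ ob y} {g : ob y ⟶ ob y}
    (h : Up m ⟨w⟩ y f) (h' : Up (n + 1) y y g) : Nontrivial (Diag R w) := by
  let Φ : CategoryTheory.Quotient (Square R) ⥤ SingleObj (Multiplicative ℤ) :=
    CategoryTheory.Quotient.lift _ wt (by
      rintro _ _ _ _ ⟨e1, e2, e3, e4⟩
      rw [wt.map_comp, wt.map_comp]
      rfl)
  refine ⟨(CategoryTheory.Quotient.functor (Square R)).map (f ≫ g ≫ Groupoid.inv f),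
    (CategoryTheory.Quotient.functor (Square R)).map (𝟙 _), fun e => ?_⟩
  have h1 : wt.map (f ≫ g ≫ Groupoid.inv f) = wt.map (𝟙 (ob (⟨w⟩ : Vert R))) := congrArg Φ.map e
  have h2 : wt.map (f ≫ g) = wt.map f := by
    have : f ≫ g = (f ≫ g ≫ Groupoid.inv f) ≫ f := by simp
    rw [this, wt.map_comp, h1, ← wt.map_comp, Category.id_comp]
  rw [wt_up (h.trans h'), wt_up h] at h2
  have := Multiplicative.ofAdd.injective h2
  omega

section
variable (G : Vert R → Prop) (hG : ∀ x y, (x ⟶ y) → (G x ↔ G y))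
  (hd : ∀ x y y', G x → ∀ (e : x ⟶ y) (e' : x ⟶ y'), e.1 = e'.1)
include hd

lemma det1 {x y y' : Vert R} (hx : G x) (e : x ⟶ y) (e' : x ⟶ y') : y = y' ∧ HEq e e' := by
  have h := hd x y y' hx e e'
  have : y = y' := by
    cases y; cases y'
    have h1 := e.2.2.2
    have h2 := e'.2.2.2
    rw [h] at h1
    exact congrArg Vert.mk (h1.trans h2.symm)
  subst this
  exact ⟨rfl, heq_of_eq (Subtype.ext h)⟩

include hG

lemma up_unique {n : ℕ} : ∀ {x z : Vert R} {f f' : ob x ⟶ ob z}, G x → Up n x z f → Up n x z f' →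
    f = f' := by
  induction n with
  | zero =>
    intro x z f f' _ h h'
    cases h; cases h'; rfl
  | succ n ih =>
    intro x z f f' hx h h'
    cases h with
    | cons e h =>
    cases h' with
    | cons e' h' =>
    obtain ⟨rfl, h2⟩ := det1 G hd hx e e'
    cases h2
    rw [ih ((hG _ _ e).1 hx) h h']

lemma nf {w : Vert R} (hw : G w) {y : Quiver.Symmetrify (Vert R)}
    (p : Quiver.Path (V := Quiver.Symmetrify (Vert R)) w y) :
    G y ∧ ∃ m n z U D, Up m w z U ∧ Up n y z D ∧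
      (Quot.mk _ p : ob w ⟶ ob y) = U ≫ Groupoid.inv D := by
  induction p with
  | nil => exact ⟨hw, 0, 0, w, 𝟙 _, 𝟙 _, Up.nil _, Up.nil _, by simp; rfl⟩
  | @cons y y' p e ih =>
    obtain ⟨hy, m, n, z, U, D, h1, h2, h3⟩ := ih
    rcases e with e | e
    · have e1 : (Quot.mk _ (p.cons (Sum.inl e)) : ob w ⟶ ob y') =
        (Quot.mk _ p : ob w ⟶ ob y) ≫ ar e := rfl
      refine ⟨(hG _ _ e).1 hy, ?_⟩
      cases h2 with
      | nil => exact ⟨_, 0, y', U ≫ ar e, 𝟙 _, h1.trans (Up.one e), Up.nil _,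
          e1.trans ((congrArg (· ≫ ar e) h3).trans (by simp))⟩
      | cons e' h2 =>
        obtain ⟨rfl, h4⟩ := det1 G hd hy e e'
        cases h4
        exact ⟨m, _, z, U, _, h1, h2, e1.trans ((congrArg (· ≫ ar e) h3).trans (by simp))⟩
    · have e1 : (Quot.mk _ (p.cons (Sum.inr e)) : ob w ⟶ ob y') =
        (Quot.mk _ p : ob w ⟶ ob y) ≫ Groupoid.inv (ar e) := rfl
      exact ⟨(hG _ _ e).2 hy, m, _, z, U, _, h1, Up.cons e h2,
        e1.trans ((congrArg (· ≫ Groupoid.inv (ar e)) h3).trans (by simp))⟩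

lemma triv {w : List ℕ} (hw : G ⟨w⟩)
    (hac : ∀ m n z U D, Up m (⟨w⟩ : Vert R) z U → Up n ⟨w⟩ z D → m = n) :
    ¬ Nontrivial (Diag R w) := by
  rw [not_nontrivial_iff_subsingleton]
  have : ∀ f : ob (⟨w⟩ : Vert R) ⟶ ob ⟨w⟩, f = 𝟙 _ := by
    rintro ⟨p⟩
    obtain ⟨_, m, n, z, U, D, h1, h2, h3⟩ := nf G hG hd hw p
    obtain rfl := hac _ _ _ _ _ h1 h2
    rw [up_unique G hG hd hw h1 h2] at h3
    exact h3.trans (Groupoid.comp_inv _)
  refine ⟨?_⟩
  rintro ⟨f⟩ ⟨g⟩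
  rw [this f, this g]

end

end Pool.Agent.H.MP_6c430b_al
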