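import Pool.Agent.Lib.helper21.While

namespace Pool.Agent.H.MP_6c430b_al

open Pool.Agent.Lib.helper21.While Function

deriving instance Countable for Prog

inductive Lt | S | E | t (o : Option ℕ) | h (K : List Prog) (ph : Fin 3)
  deriving DecidableEq, Countable

open Lt

def reg : List Prog → Option ℕ
  | .dec i :: _ => some i
  | .loop i _ :: _ => some i
  | _ => none

inductive Rule : List Lt → List Lt → Prop
  | inc (i K) : Rule [h (.inc i :: K) 0] [h K 0, t (some i), t none]
  | seq (p q K) : Rule [h (.seq p q :: K) 0] [h (p :: q :: K) 0, t none]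
  | left (K i x) : reg K = some i → Rule [t x, h K 0] [h K 0, t x, t none]
  | turn (K i) : reg K = some i → Rule [S, h K 0] [S, t none, h K 1]
  | right (K i x) : reg K = some i → x ≠ some i → Rule [h K 1, t x] [t x, t none, h K 1]
  | dec1 (i K) : Rule [h (.dec i :: K) 1, t (some i)] [h K 0, t none]
  | dec0 (i K) : Rule [h (.dec i :: K) 1, E] [h K 0, t none, E]
  | loop1 (i p K) : Rule [h (.loop i p :: K) 1, t (some i)]
      [h (p :: .loop i p :: K) 0, t none, t (some i)]
  | loop0 (i p K) : Rule [h (.loop i p :: K) 1, E] [h K 0, t none, E]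
  | tri (ph : Fin 3) : Rule [h [] ph] [h [] (ph + 1)]

def isH : Lt → Bool
  | h _ _ => true
  | _ => false

lemma split : ∀ {A A' B B' : List Lt} {x x' : Lt}, A ++ x :: B = A' ++ x' :: B' → isH x → isH x' →
    (A ++ x :: B).countP isH = 1 → A = A' ∧ x = x' ∧ B = B'
  | [], [], _, _, _, _, e, _, _, _ => by simpa using e
  | [], a :: A', _, _, _, _, e, h1, h2, h3 => by
    simp only [List.nil_append, List.cons_append, List.cons.injEq] at e
    obtain ⟨rfl, rfl⟩ := e
    simp [h1, h2] at h3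
  | a :: A, [], _, _, _, _, e, h1, h2, h3 => by
    simp only [List.nil_append, List.cons_append, List.cons.injEq] at e
    obtain ⟨rfl, rfl⟩ := e
    simp [h1, h2] at h3
  | a :: A, a' :: A', _, _, _, _, e, h1, h2, h3 => by
    simp only [List.cons_append, List.cons.injEq] at e
    obtain ⟨rfl, e⟩ := e
    have := split e h1 h2 (by
      simp only [List.cons_append, List.countP_cons, List.countP_append, h1] at h3 ⊢
      simp only [if_true] at h3 ⊢
      omega)
    simp [this]

lemma Rule.shape {u v : List Lt} (hr : Rule u v) : (∃ u1 K ph u2, u = u1 ++ h K ph :: u2 ∧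
    u1.length = (if ph = 0 ∧ (reg K).isSome then 1 else 0) ∧
    u2.length = (if ph = 1 ∧ K ≠ [] then 1 else 0)) ∧ u.countP isH = 1 ∧ v.countP isH = 1 := by
  refine ⟨?_, by cases hr <;> rfl, by cases hr <;> rfl⟩
  cases hr with
  | left K i x hk => exact ⟨[_], _, _, [], rfl, by simp [hk], by simp⟩
  | turn K i hk => exact ⟨[_], _, _, [], rfl, by simp [hk], by simp⟩
  | right K i x hk => exact ⟨[], _, _, _, rfl, by simp, by cases K <;> simp_all [reg]⟩
  | _ => exact ⟨[], _, _, _, rfl, by simp [reg], by simp⟩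

lemma Rule.func {u v v' : List Lt} (hr : Rule u v) (hr' : Rule u v') : v = v' := by
  cases hr <;> cases hr' <;> simp_all [reg]

lemma Rule.det {a u v b a' u' v' b' : List Lt} (hr : Rule u v) (hr' : Rule u' v')
    (e : a ++ u ++ b = a' ++ u' ++ b') (h1 : (a ++ u ++ b).countP isH = 1) :
    a = a' ∧ u = u' ∧ v = v' := by
  obtain ⟨u1, K, ph, u2, rfl, h2, h3⟩ := hr.shape.1
  obtain ⟨u1', K', ph', u2', rfl, h2', h3'⟩ := hr'.shape.1
  obtain ⟨e1, e2, e3⟩ := split (A := a ++ u1) (A' := a' ++ u1') (B := u2 ++ b) (B' := u2' ++ b')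
    (x := h K ph) (x' := h K' ph') (by simpa using e) rfl rfl (by simpa using h1)
  cases e2
  obtain ⟨rfl, rfl⟩ := List.append_inj' e1 (h2.trans h2'.symm)
  obtain ⟨rfl, rfl⟩ := List.append_inj e3 (h3.trans h3'.symm)
  exact ⟨rfl, rfl, hr.func hr'⟩

def W (l : List (Option ℕ)) (K : List Prog) (ph : Fin 3) (r : List (Option ℕ)) : List Lt :=
  (S :: l.map t) ++ h K ph :: (r.map t ++ [E])

lemma W_cnt (l K ph r) : (W l K ph r).countP isH = 1 := by
  have : ∀ l : List (Option ℕ), (l.map t).countP isH = 0 := by simp [isH]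
  simp only [W, List.countP_append, List.countP_cons, this]
  simp [isH]

def cnt (l : List (Option ℕ)) : St := fun j => l.count (some j)

def T : List Prog → St → Prop
  | [], _ => True
  | p :: K, s => ∃ s', Run p s s' ∧ T K s'

def NH (X : List Lt) : Prop := ∃ l K ph r, X = W l K ph r ∧ ¬ T K (cnt (l ++ r)) ∧
  (ph ≠ 0 → ∀ i, reg K = some i → some i ∉ l)

lemma cnt_inc (l r : List (Option ℕ)) (i : ℕ) :
    cnt (l ++ some i :: none :: r) = update (cnt (l ++ r)) i (cnt (l ++ r) i + 1) := by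
  ext j
  by_cases e : j = i
  · subst e; simp [cnt, add_assoc]
  · simp [cnt, e, Ne.symm e]

lemma cnt_dec (l r : List (Option ℕ)) (i : ℕ) :
    cnt (l ++ none :: r) =
      update (cnt (l ++ some i :: r)) i (cnt (l ++ some i :: r) i - 1) := by
  ext j
  by_cases e : j = i
  · subst e; simp [cnt]
  · simp [cnt, e, Ne.symm e]

lemma cnt_none (l r : List (Option ℕ)) : cnt (l ++ none :: r) = cnt (l ++ r) := by
  ext j; simp [cnt]

lemma lft {a : List Lt} {x : Option ℕ} {l : List (Option ℕ)} (e : a ++ [t x] = S :: l.map t) :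
    ∃ l', l = l' ++ [x] ∧ a = S :: l'.map t := by
  rcases List.eq_nil_or_concat l with rfl | ⟨l', y, rfl⟩
  · cases a <;> simp at e
  · rw [List.concat_eq_append, List.map_append, ← List.cons_append] at e
    obtain ⟨rfl, e2⟩ := List.append_inj' e rfl
    simp only [List.map_cons, List.map_nil, List.cons.injEq, t.injEq, and_true] at e2
    exact ⟨l', by simp [e2], rfl⟩

lemma lftS {a : List Lt} {l : List (Option ℕ)} (e : a ++ [S] = S :: l.map t) : l = [] ∧ a = [] := by
  rcases List.eq_nil_or_concat l with rfl | ⟨l', y, rfl⟩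
  · cases a <;> simp_all
  · rw [List.concat_eq_append, List.map_append, ← List.cons_append] at e
    simpa using (List.append_inj' e rfl).2

lemma rgt {b : List Lt} {x : Option ℕ} {r : List (Option ℕ)} (e : t x :: b = r.map t ++ [E]) :
    ∃ r', r = x :: r' ∧ b = r'.map t ++ [E] := by
  cases r <;> simp_all

lemma rgtE {b : List Lt} {r : List (Option ℕ)} (e : E :: b = r.map t ++ [E]) : r = [] ∧ b = [] := by
  cases r <;> simp_all

lemma NH.step {a u v b : List Lt} (hr : Rule u v) (hn : NH (a ++ u ++ b)) :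
    NH (a ++ v ++ b) ∧ v.count (t none) = u.count (t none) + 1 := by
  obtain ⟨l, K, ph, r, e, h1, h2⟩ := hn
  have sp : ∀ {u1 K' ph' u2}, u = u1 ++ h K' ph' :: u2 →
      a ++ u1 = S :: l.map t ∧ K' = K ∧ ph' = ph ∧ u2 ++ b = r.map t ++ [E] := by
    rintro u1 K' ph' u2 rfl
    have := split (A := a ++ u1) (A' := S :: l.map t) (B := u2 ++ b) (B' := r.map t ++ [E])
      (x := h K' ph') (x' := h K ph) (by simpa [W] using e) rfl rfl (by
        have := W_cnt l K ph r
        rw [← e] at this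
        simpa using this)
    simpa [and_assoc] using this
  cases hr with
  | inc i K' =>
    obtain ⟨e1, rfl, rfl, e2⟩ := sp (u1 := []) rfl
    simp only [List.append_nil, List.nil_append] at e1 e2
    refine ⟨⟨l, K', 0, some i :: none :: r, by simp [W, e1, e2], fun h => h1 ?_, by simp⟩, by simp⟩
    exact ⟨_, Run.inc _ _, cnt_inc l r i ▸ h⟩
  | seq p q K' =>
    obtain ⟨e1, rfl, rfl, e2⟩ := sp (u1 := []) rfl
    simp only [List.append_nil, List.nil_append] at e1 e2
    refine ⟨⟨l, p :: q :: K', 0, none :: r, by simp [W, e1, e2], fun h => h1 ?_, by simp⟩, by simp⟩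
    rw [cnt_none] at h
    obtain ⟨s1, h3, s2, h4, h5⟩ := h
    exact ⟨_, h3.seq h4, h5⟩
  | left K' i x hk =>
    obtain ⟨e1, rfl, rfl, e2⟩ := sp (u1 := [_]) rfl
    obtain ⟨l', rfl, rfl⟩ := lft e1
    simp only [List.nil_append] at e2
    refine ⟨⟨l', K', 0, x :: none :: r, by simp [W, e2], fun h => h1 ?_, by simp⟩,
      by cases x <;> simp⟩
    rwa [← cnt_none, List.append_assoc]
  | turn K' i hk =>
    obtain ⟨e1, rfl, rfl, e2⟩ := sp (u1 := [_]) rfl
    obtain ⟨rfl, rfl⟩ := lftS e1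
    simp only [List.nil_append] at e2
    refine ⟨⟨[none], K', 1, r, by simp [W, e2], fun h => h1 ?_, by simp⟩, by simp⟩
    rwa [← cnt_none]
  | right K' i x hk hx =>
    obtain ⟨e1, rfl, rfl, e2⟩ := sp (u1 := []) rfl
    obtain ⟨r', rfl, rfl⟩ := rgt e2
    simp only [List.append_nil] at e1
    refine ⟨⟨l ++ [x, none], K', 1, r', by simp [W, e1], fun h => h1 ?_, ?_⟩,
      by cases x <;> simp⟩
    · have := cnt_none (l ++ [x]) r'
      simp only [List.append_assoc, List.cons_append, List.nil_append] at this h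
      rwa [← this]
    · intro _ j hj
      obtain rfl : j = i := Option.some.inj (hj.symm.trans hk)
      simp [h2 (by simp) j hj, Ne.symm hx]
  | dec1 i K' =>
    obtain ⟨e1, rfl, rfl, e2⟩ := sp (u1 := []) rfl
    obtain ⟨r', rfl, rfl⟩ := rgt e2
    simp only [List.append_nil] at e1
    refine ⟨⟨l, K', 0, none :: r', by simp [W, e1], fun h => h1 ?_, by simp⟩, by simp⟩
    exact ⟨_, Run.dec _ _, cnt_dec l r' i ▸ h⟩
  | dec0 i K' =>
    obtain ⟨e1, rfl, rfl, e2⟩ := sp (u1 := []) rfl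
    obtain ⟨rfl, rfl⟩ := rgtE e2
    simp only [List.append_nil] at e1
    refine ⟨⟨l, K', 0, [none], by simp [W, e1], fun h => h1 ?_, by simp⟩, by simp⟩
    rw [cnt_none] at h
    refine ⟨_, (Run.dec _ _).of_eq (fun j => ?_), h⟩
    have := List.count_eq_zero.2 (h2 (by simp) i rfl)
    by_cases e : j = i
    · subst e; simp [cnt, this]
    · simp [e]
  | loop1 i p K' =>
    obtain ⟨e1, rfl, rfl, e2⟩ := sp (u1 := []) rfl
    obtain ⟨r', rfl, rfl⟩ := rgt e2
    simp only [List.append_nil] at e1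
    refine ⟨⟨l, p :: .loop i p :: K', 0, none :: some i :: r', by simp [W, e1], fun h => h1 ?_,
      by simp⟩, by simp⟩
    rw [cnt_none] at h
    obtain ⟨s1, h3, s2, h4, h5⟩ := h
    exact ⟨_, Run.go (by simp [cnt]) h3 h4, h5⟩
  | loop0 i p K' =>
    obtain ⟨e1, rfl, rfl, e2⟩ := sp (u1 := []) rfl
    obtain ⟨rfl, rfl⟩ := rgtE e2
    simp only [List.append_nil] at e1
    refine ⟨⟨l, K', 0, [none], by simp [W, e1], fun h => h1 ?_, by simp⟩, by simp⟩
    rw [cnt_none] at h
    refine ⟨_, Run.stop _ ?_, h⟩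
    simpa [cnt] using List.count_eq_zero.2 (h2 (by simp) i rfl)
  | tri ph' =>
    obtain ⟨e1, rfl, rfl, e2⟩ := sp (u1 := []) rfl
    exact absurd trivial h1

def conts : Prog → List Prog → List (List Prog)
  | .inc i, K => [.inc i :: K]
  | .dec i, K => [.dec i :: K]
  | .seq p q, K => (.seq p q :: K) :: (conts p (q :: K) ++ conts q K)
  | .loop i p, K => (.loop i p :: K) :: conts p (.loop i p :: K)

def Lam (C : List (List Prog)) (N : ℕ) : Lt → Prop
  | t (some j) => j ≤ N
  | h K _ => K ∈ C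
  | _ => True

def Stp (C : List (List Prog)) (N : ℕ) (X Y : List Lt) : Prop :=
  ∃ a u v b, Rule u v ∧ (∀ x ∈ u, Lam C N x) ∧ X = a ++ u ++ b ∧ Y = a ++ v ++ b

variable {C : List (List Prog)} {N : ℕ}

lemma lam_t {L : List (Option ℕ)} (hb : ∀ j, N < j → cnt L j = 0) {x : Option ℕ} (hx : x ∈ L) :
    Lam C N (t x) := by
  cases x with
  | none => trivial
  | some j =>
    by_contra hj
    exact List.count_eq_zero.1 (hb j (not_le.1 hj)) hx

lemma goL {K : List Prog} {i : ℕ} (hk : reg K = some i) (hC : K ∈ C) (l : List (Option ℕ)) :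
    ∀ r, (∀ j, N < j → cnt (l ++ r) j = 0) →
      ∃ r', Relation.ReflTransGen (Stp C N) (W l K 0 r) (W [none] K 1 r') ∧
        cnt r' = cnt (l ++ r) := by
  induction l using List.reverseRecOn with
  | nil =>
    intro r _
    exact ⟨r, .single ⟨[], _, _, r.map t ++ [E], Rule.turn K i hk, by simp [Lam, hC],
      by simp [W], by simp [W]⟩, rfl⟩
  | append_singleton l x ih =>
    intro r hb
    have e : cnt (l ++ x :: none :: r) = cnt (l ++ [x] ++ r) := by
      rw [← cnt_none (l ++ [x])]; simp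
    obtain ⟨r', h1, h2⟩ := ih (x :: none :: r) (e ▸ hb)
    refine ⟨r', .head ⟨S :: l.map t, _, _, r.map t ++ [E], Rule.left K i x hk, ?_,
      by simp [W], by simp [W]⟩ h1, h2.trans e⟩
    simp only [List.mem_cons, List.not_mem_nil, or_false, forall_eq_or_imp, forall_eq]
    exact ⟨lam_t hb (by simp), hC⟩

lemma goR {K : List Prog} {i : ℕ} (hk : reg K = some i) (hC : K ∈ C) (r : List (Option ℕ)) :
    ∀ l, (∀ j, N < j → cnt (l ++ r) j = 0) → some i ∉ l →
      ∃ l' r', Relation.ReflTransGen (Stp C N) (W l K 1 r) (W l' K 1 r') ∧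
        cnt (l' ++ r') = cnt (l ++ r) ∧ (r' = [] ∧ some i ∉ l' ∨ ∃ r'', r' = some i :: r'') := by
  induction r with
  | nil => exact fun l _ h => ⟨l, [], .refl, rfl, Or.inl ⟨rfl, h⟩⟩
  | cons x r ih =>
    intro l hb hl
    by_cases hx : x = some i
    · exact ⟨l, _, .refl, rfl, Or.inr ⟨r, by rw [hx]⟩⟩
    have e : cnt (l ++ [x, none] ++ r) = cnt (l ++ x :: r) := by
      have := cnt_none (l ++ [x]) r
      simpa using this
    obtain ⟨l', r', h1, h2, h3⟩ := ih (l ++ [x, none]) (e ▸ hb) (by simp [hl, Ne.symm hx])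
    refine ⟨l', r', .head ⟨S :: l.map t, _, _, r.map t ++ [E], Rule.right K i x hk hx, ?_,
      by simp [W], by simp [W]⟩ h1, h2.trans e, h3⟩
    simp only [List.mem_cons, List.not_mem_nil, or_false, forall_eq_or_imp, forall_eq]
    exact ⟨hC, lam_t hb (by simp)⟩

lemma goLR {K : List Prog} {i : ℕ} (hk : reg K = some i) (hC : K ∈ C) (l r : List (Option ℕ))
    (hb : ∀ j, N < j → cnt (l ++ r) j = 0) :
      ∃ l' r', Relation.ReflTransGen (Stp C N) (W l K 0 r) (W l' K 1 r') ∧
        cnt (l' ++ r') = cnt (l ++ r) ∧ (r' = [] ∧ some i ∉ l' ∨ ∃ r'', r' = some i :: r'') := by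
  obtain ⟨r1, h1, h2⟩ := goL hk hC l r hb
  have e : cnt ([none] ++ r1) = cnt (l ++ r) := (cnt_none [] r1).trans h2
  obtain ⟨l', r', h3, h4, h5⟩ := goR hk hC r1 [none] (e ▸ hb) (by simp)
  exact ⟨l', r', h1.trans h3, h4.trans e, h5⟩

lemma sim (hN : ∀ i K, .inc i :: K ∈ C → i ≤ N) {p : Prog} {s s' : St} (hr : Run p s s') :
    ∀ K l r, (∀ K' ∈ conts p K, K' ∈ C) → cnt (l ++ r) = s → (∀ j, N < j → s j = 0) →
      ∃ l' r', Relation.ReflTransGen (Stp C N) (W l (p :: K) 0 r) (W l' K 0 r') ∧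
        cnt (l' ++ r') = s' ∧ (∀ j, N < j → s' j = 0) := by
  induction hr with
  | inc i s =>
    rintro K l r hC rfl hb
    have h1 := hC _ (List.mem_singleton_self _)
    refine ⟨l, some i :: none :: r, .single ⟨S :: l.map t, _, _, r.map t ++ [E], Rule.inc i K,
      by simpa [Lam] using h1, by simp [W], by simp [W]⟩, cnt_inc _ _ _, fun j hj => ?_⟩
    have := hN _ _ h1
    rw [update_of_ne (by omega), hb j hj]
  | dec i s =>
    rintro K l r hC rfl hb
    have h1 := hC _ (List.mem_singleton_self _)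
    have hb' : ∀ j, N < j → update (cnt (l ++ r)) i (cnt (l ++ r) i - 1) j = 0 := by
      intro j hj
      by_cases e : j = i
      · subst e; simp [hb j hj]
      · simp [e, hb j hj]
    obtain ⟨l', r', h2, h3, ⟨rfl, h4⟩ | ⟨r', rfl⟩⟩ := goLR (i := i) rfl h1 l r hb
    · refine ⟨l', [none], h2.tail ⟨S :: l'.map t, _, _, [], Rule.dec0 i K,
        by simpa [Lam] using h1, by simp [W], by simp [W]⟩, ?_, hb'⟩
      rw [cnt_none, ← h3]
      ext j
      by_cases e : j = i
      · subst e; simp [cnt, List.count_eq_zero.2 h4]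
      · simp [e]
    · refine ⟨l', none :: r', h2.tail ⟨S :: l'.map t, _, _, r'.map t ++ [E], Rule.dec1 i K,
        ?_, by simp [W], by simp [W]⟩, h3 ▸ cnt_dec _ _ _, hb'⟩
      simp only [List.mem_cons, List.not_mem_nil, or_false, forall_eq_or_imp, forall_eq]
      exact ⟨h1, lam_t (h3 ▸ hb) (by simp)⟩
  | @seq p q _ _ _ _ _ ih1 ih2 =>
    rintro K l r hC rfl hb
    obtain ⟨l1, r1, h1, h2, h3⟩ := ih1 (q :: K) l (none :: r)
      (fun K' h => hC _ (by simp [conts, h])) (cnt_none _ _) hb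
    obtain ⟨l2, r2, h4, h5⟩ := ih2 K l1 r1 (fun K' h => hC _ (by simp [conts, h])) h2 h3
    exact ⟨l2, r2, .head ⟨S :: l.map t, _, _, r.map t ++ [E], Rule.seq p q K,
      by simpa [Lam] using hC _ (by simp [conts]), by simp [W], by simp [W]⟩ (h1.trans h4), h5⟩
  | @stop i p _ h0 =>
    rintro K l r hC rfl hb
    have h1 : .loop i p :: K ∈ C := hC _ (by simp [conts])
    obtain ⟨l', r', h2, h3, ⟨rfl, h4⟩ | ⟨r', rfl⟩⟩ := goLR (i := i) rfl h1 l r hb
    · exact ⟨l', [none], h2.tail ⟨S :: l'.map t, _, _, [], Rule.loop0 i p K,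
        by simpa [Lam] using h1, by simp [W], by simp [W]⟩, (cnt_none _ _).trans h3, hb⟩
    · rw [← h3] at h0
      simp [cnt] at h0
  | @go i p _ _ _ h0 _ _ ih1 ih2 =>
    rintro K l r hC rfl hb
    have h1 : .loop i p :: K ∈ C := hC _ (by simp [conts])
    obtain ⟨l', r', h2, h3, ⟨rfl, h4⟩ | ⟨r', rfl⟩⟩ := goLR (i := i) rfl h1 l r hb
    · rw [← h3] at h0
      simp [cnt, List.count_eq_zero.2 h4] at h0
    · obtain ⟨l1, r1, h5, h6, h7⟩ := ih1 (.loop i p :: K) l' (none :: some i :: r')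
        (fun K' h => hC _ (by simp [conts, h])) ((cnt_none _ _).trans h3) hb
      obtain ⟨l2, r2, h8, h9⟩ := ih2 K l1 r1 hC h6 h7
      refine ⟨l2, r2, (h2.tail ⟨S :: l'.map t, _, _, r'.map t ++ [E], Rule.loop1 i p K,
        ?_, by simp [W], by simp [W]⟩).trans (h5.trans h8), h9⟩
      simp only [List.mem_cons, List.not_mem_nil, or_false, forall_eq_or_imp, forall_eq]
      exact ⟨h1, lam_t (h3 ▸ hb) (by simp)⟩

lemma fin_rules (C : List (List Prog)) (N : ℕ) :
    {p : List Lt × List Lt | Rule p.1 p.2 ∧ ∀ x ∈ p.1, Lam C N x}.Finite := by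
  have h1 : {x | Lam C N x}.Finite := by
    refine (((Set.finite_le_nat N).image (fun j => t (some j))).union
      (((C.finite_toSet.prod (Set.finite_univ (α := Fin 3))).image (fun z => h z.1 z.2)).union
        (Set.toFinite {S, E, t none}))).subset ?_
    rintro (_ | _ | (_ | j) | ⟨K, ph⟩) hx <;> simp_all [Lam]
  refine Set.Finite.of_finite_image (f := Prod.fst)
    (((h1.image (fun x => [x])).union (h1.image2 (fun x y => [x, y]) h1)).subset ?_) ?_
  · rintro _ ⟨⟨u, v⟩, ⟨h2, h3⟩, rfl⟩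
    cases h2 <;> simp_all
  · rintro ⟨u, v⟩ h2 ⟨u', v'⟩ h3 e
    cases e
    rw [show v = v' from h2.1.func h3.1]

end Pool.Agent.H.MP_6c430b_al
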