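import Pool.Agent.H.MP_6c430b_al.G
import Pool.Agent.H.MP_6c430b_al.M

namespace Pool.Agent.H.MP_6c430b_al

open Pool.Agent.Lib.helper21.While Function CategoryTheory Lt

lemma Rule.asymm {u v : List Lt} (hr : Rule u v) (hr' : Rule v u) : False := by
  have : ∀ {u v}, Rule u v → v.count (t none) = u.count (t none) + 1 ∨
      ∃ ph, u = [h [] ph] ∧ v = [h [] (ph + 1)] := by
    intro u v hr
    cases hr with
    | tri ph => exact Or.inr ⟨ph, rfl, rfl⟩
    | left K i x => left; cases x <;> simp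
    | right K i x => left; cases x <;> simp
    | _ => left; simp
  rcases this hr with h1 | ⟨ph, rfl, rfl⟩ <;> rcases this hr' with h2 | ⟨ph', h2, h3⟩
  · omega
  · subst h2 h3
    simp at h1
  · simp at h2
  · simp only [List.cons.injEq, h.injEq, true_and, and_true] at h2 h3
    subst h2
    clear hr hr'
    revert h3 ph
    decide

lemma reduction (P : Prog) : ∃ (R : List (List ℕ × List ℕ)) (a b : List ℕ) (c : ℕ),
    (∀ r ∈ R, r.1 ≠ [] ∧ r.2 ≠ [] ∧ (r.2, r.1) ∉ R) ∧ a ≠ [] ∧
    ∀ n, Nontrivial (Diag R (a ++ List.replicate n c ++ b)) ↔ ∃ s, Run P (init n) s := by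
  obtain ⟨enc, he⟩ := exists_injective_nat Lt
  have : Nonempty Lt := ⟨S⟩
  obtain ⟨dec, hd⟩ : ∃ dec : ℕ → Lt, ∀ x, dec (enc x) = x := ⟨_, leftInverse_invFun he⟩
  have hd' : ∀ u : List Lt, (u.map enc).map dec = u := by
    intro u; simp [Function.comp_def, hd]
  obtain ⟨C, hC⟩ : ∃ C, C = [] :: conts P [] := ⟨_, rfl⟩
  obtain ⟨N, hN⟩ : ∃ N, ∀ i K, Prog.inc i :: K ∈ C → i ≤ N := by
    let f : List Prog → ℕ := fun K => match K with
      | .inc i :: _ => i
      | _ => 0
    exact ⟨(C.map f).sum, fun i K h =>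
      List.single_le_sum (by simp) (f (.inc i :: K)) (List.mem_map_of_mem h)⟩
  obtain ⟨R, hR⟩ : ∃ R : List (List ℕ × List ℕ), ∀ r, r ∈ R ↔
      ∃ u v, Rule u v ∧ (∀ x ∈ u, Lam C N x) ∧ r = (u.map enc, v.map enc) := by
    refine ⟨(fin_rules C N).toFinset.toList.map (fun p => (p.1.map enc, p.2.map enc)), fun r => ?_⟩
    simp [and_assoc, eq_comm]
  refine ⟨R, [enc S, enc (h [P] 0)], [enc E], enc (t (some 0)), ?_, by simp, fun n => ?_⟩
  · intro r hr
    obtain ⟨u, v, h1, _, rfl⟩ := (hR r).1 hr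
    refine ⟨by cases h1 <;> simp, by cases h1 <;> simp, fun h2 => ?_⟩
    obtain ⟨u', v', h3, _, e⟩ := (hR _).1 h2
    obtain ⟨e1, e2⟩ := Prod.mk.inj e
    rw [← List.map_injective_iff.2 he e1, ← List.map_injective_iff.2 he e2] at h3
    exact h1.asymm h3
  have ew : [enc S, enc (h [P] 0)] ++ List.replicate n (enc (t (some 0))) ++ [enc E] =
      (W [] [P] 0 (List.replicate n (some 0))).map enc := by simp [W]
  have ec : cnt ([] ++ List.replicate n (some 0)) = init n := by
    ext j
    by_cases e : j = 0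
    · subst e; simp [cnt, init]
    · simp [cnt, init, e, List.count_replicate, Ne.symm e]
  rw [ew]
  constructor
  · have ed : ∀ {x y : Vert R} (e : x ⟶ y), ∃ u v, Rule u v ∧
        e.1.2.1 = (u.map enc, v.map enc) ∧
        x.word.map dec = e.1.1.map dec ++ u ++ e.1.2.2.map dec ∧
        y.word.map dec = e.1.1.map dec ++ v ++ e.1.2.2.map dec := by
      intro x y e
      obtain ⟨u, v, h1, _, h2⟩ := (hR _).1 e.2.1
      refine ⟨u, v, h1, h2, ?_, ?_⟩
      · refine (congrArg _ e.2.2.1).trans ?_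
        rw [h2, List.map_append, List.map_append, hd']
      · refine (congrArg _ e.2.2.2).trans ?_
        rw [h2, List.map_append, List.map_append, hd']
    intro hnt
    by_contra hh
    refine triv (R := R) (fun x => (x.word.map dec).countP isH = 1) ?_ ?_ ?_ ?_ hnt
    · intro x y e
      obtain ⟨u, v, h1, _, h2, h3⟩ := ed e
      simp only [h2, h3, List.countP_append, h1.shape.2.1, h1.shape.2.2]
    · intro x y y' hx e e'
      obtain ⟨u, v, h1, h2, h3, _⟩ := ed e
      obtain ⟨u', v', h1', h2', h3', _⟩ := ed e'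
      obtain ⟨h4, rfl, rfl⟩ := h1.det h1' (h3.symm.trans h3') (h3 ▸ hx)
      have h5 := e.2.2.1.symm.trans e'.2.2.1
      rw [h2, h2', List.append_assoc, List.append_assoc] at h5
      obtain ⟨h6, h7⟩ := List.append_inj h5 (by simpa using congrArg List.length h4)
      exact Prod.ext h6 (Prod.ext (h2.trans h2'.symm) (List.append_cancel_left h7))
    · simp only [hd', W_cnt]
    · have pot : ∀ {m x z U}, Up (R := R) m x z U → NH (x.word.map dec) →
          (z.word.map dec).count (t none) = (x.word.map dec).count (t none) + m := by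
        intro m x z U hU
        induction hU with
        | nil => simp
        | cons e _ ih =>
          intro hx
          obtain ⟨u, v, h1, _, h2, h3⟩ := ed e
          obtain ⟨h4, h5⟩ := NH.step h1 (h2 ▸ hx)
          rw [ih (h3 ▸ h4), h2, h3]
          simp only [List.count_append, h5]
          omega
      have h0 : NH (((W [] [P] 0 (List.replicate n (some 0))).map enc).map dec) := by
        refine ⟨[], [P], 0, _, hd' _, ?_, by simp⟩
        rw [ec]
        rintro ⟨s, h, _⟩
        exact hh ⟨s, h⟩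
      intro m n z U D h1 h2
      have := (pot h1 h0).symm.trans (pot h2 h0)
      omega
  · rintro ⟨s, hs⟩
    have ed : ∀ {X Y}, Stp C N X Y → Nonempty ((⟨X.map enc⟩ : Vert R) ⟶ ⟨Y.map enc⟩) := by
      rintro _ _ ⟨a, u, v, b, h1, h2, rfl, rfl⟩
      exact ⟨⟨(a.map enc, (u.map enc, v.map enc), b.map enc), (hR _).2 ⟨u, v, h1, h2, rfl⟩,
        by simp, by simp⟩⟩
    have up : ∀ {X Y}, Relation.ReflTransGen (Stp C N) X Y →
        ∃ m f, Up m (⟨X.map enc⟩ : Vert R) ⟨Y.map enc⟩ f := by
      intro X Y hXY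
      induction hXY with
      | refl => exact ⟨_, _, Up.nil _⟩
      | tail _ h ih =>
        obtain ⟨m, f, h1⟩ := ih
        obtain ⟨e⟩ := ed h
        exact ⟨_, _, h1.trans (Up.one e)⟩
    obtain ⟨l, r, h1, _⟩ := sim hN hs [] [] _ (fun K h => by simp [hC, h]) ec
      (fun j hj => by simp [init, show j ≠ 0 by omega])
    obtain ⟨m, f, h2⟩ := up h1
    have tr : ∀ ph, Stp C N (W l [] ph r) (W l [] (ph + 1) r) := fun ph =>
      ⟨S :: l.map t, _, _, r.map t ++ [E], Rule.tri ph, by simp [Lam, hC], by simp [W], by simp [W]⟩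
    obtain ⟨e0⟩ := ed (tr 0)
    obtain ⟨e1⟩ := ed (tr (0 + 1))
    obtain ⟨e2⟩ := ed (tr (0 + 1 + 1))
    exact nontriv h2 (Up.cons e0 (Up.cons e1 (Up.one e2)))

end Pool.Agent.H.MP_6c430b_al
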